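import Mathlib

/-!
Dissections of a rectangle into rectangles, the sides of which carry automorphisms of a linear
order.
-/

set_option autoImplicit false

namespace Pool.Agent.Helper89.TL

/-- The unit interval `i` belongs to the interval of length `c` which starts at `a`. -/
def In (a c i : ℕ) : Prop := a ≤ i ∧ i < a + c

/-- The `k × h` rectangle is dissected into rectangles `e` (position `al e`, height `yt e` of the
lower side, width `wd e`, height `ht e`); the lower and the upper side of `e` carry the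
automorphisms `lo e`, `up e`, the left and the right side carry `lt e`, `rt e`. -/
structure RTiling (X : Type*) [LinearOrder X] (h k : ℕ) (τ M : X ≃o X) (ι : Type*) where
  al : ι → ℕ
  yt : ι → ℕ
  wd : ι → ℕ
  ht : ι → ℕ
  wd_pos : ∀ e, 0 < wd e
  ht_pos : ∀ e, 0 < ht e
  colb : ∀ e, al e + wd e ≤ k
  rowb : ∀ e, yt e + ht e ≤ h
  cover : ∀ i < k, ∀ j < h, ∃ e, In (al e) (wd e) i ∧ In (yt e) (ht e) j
  disj : ∀ e e' i j, In (al e) (wd e) i → In (yt e) (ht e) j → In (al e') (wd e') i →
    In (yt e') (ht e') j → e = e'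
  lo : ι → X ≃o X
  up : ι → X ≃o X
  lt : ι → X ≃o X
  rt : ι → X ≃o X
  bot : ∀ e, yt e = 0 → lo e = 1
  top : ∀ e, yt e + ht e = h → up e = τ
  vert : ∀ e e' i, In (al e) (wd e) i → In (al e') (wd e') i → yt e + ht e = yt e' →
    up e = lo e'
  left : ∀ e, al e = 0 → ∀ z, z ≤ lt e z
  right : ∀ e, al e + wd e = k → ∀ z, rt e z ≤ M z
  horz : ∀ e e' j, In (yt e) (ht e) j → In (yt e') (ht e') j → al e + wd e = al e' →
    ∀ z, rt e z ≤ lt e' z
  comm : ∀ e, Commute (up e * (lo e)⁻¹) (rt e * (lt e)⁻¹)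
  slope : ∀ e z, ((up e * (lo e)⁻¹) ^ wd e) z ≤ ((rt e * (lt e)⁻¹) ^ ht e) z

end Pool.Agent.Helper89.TL
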