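import Pool.Agent.Helper24.T8.Defs

/-!
Manifolds glued along trees from double branched covers of the complements of the crossing balls
of alternating diagrams; the intervals of slopes are bounded by dissections of rectangles.
-/

set_option autoImplicit false

namespace Pool.Agent.Helper89.TL

open Pool.Agent.Helper42.Th (CMap Lab)
open Pool.Agent.Helper24.T8 (dual)

/-- The dart `d` starts at the start of `δ`, or it ends at the end of `δ`, or it has a face in
common with `δ`, such that `d` and `δ` are oriented in opposite ways. -/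
def Touch {E : Type} (Γ : CMap E) (δ d : E) : Prop :=
  Γ.rot.SameCycle δ d ∨ Γ.rot.SameCycle (Γ.flip δ) (Γ.flip d) ∨
    Γ.dual.rot.SameCycle (Γ.flip δ) d ∨ Γ.dual.rot.SameCycle δ (Γ.flip d)

/-- The sum of the sides of the squares into which the Euclidean algorithm cuts a rectangle with
the sides `a` and `b`. -/
def size (a b : ℤ) : ℤ := a + b - Int.gcd a b

/-- The graph without the edge of `δ` dissects a rectangle of height `h` and width `k`: `Y` is the
height of the vertices, `A` the position of the faces, and the set `T` of darts is the set of the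
rectangles.  The other edges have both faces at the same position, and their ends are at the same
height, or they touch `δ`. -/
structure Dissection {E : Type} (Γ : CMap E) (δ : E) (h k : ℕ) (Y A : E → ℤ) (T : Finset E) :
    Prop where
  h_pos : 0 < h
  k_pos : 0 < k
  Y_rot : ∀ d, Y (Γ.rot d) = Y d
  A_rot : ∀ d, A (Γ.flip (Γ.rot d)) = A d
  Y_lo : Y δ = 0
  Y_hi : Y (Γ.flip δ) = h
  A_lo : A (Γ.flip δ) = 0
  A_hi : A δ = k
  mem : ∀ d, d ∈ T ↔ d ≠ Γ.flip δ ∧ A d < A (Γ.flip d)
  tile : ∀ d ∈ T, Y d < Y (Γ.flip d)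
  wall : ∀ d, A d = A (Γ.flip d) → Y d < Y (Γ.flip d) → Touch Γ δ d

/-- The sum of the sizes of the rectangles. -/
def total {E : Type} (Γ : CMap E) (Y A : E → ℤ) (T : Finset E) : ℤ :=
  ∑ d ∈ T, size (A (Γ.flip d) - A d) (Y (Γ.flip d) - Y d)

/-- The dart `d` starts at the start of `δ`, and from its end one can reach the end of `δ` without
returning to the first vertex. -/
def Leaves {E : Type} (Γ : CMap E) (δ d : E) : Prop :=
  Γ.rot.SameCycle δ d ∧ Γ.Away δ (Γ.flip d) (Γ.flip δ)

/-- One of the edges which are not rectangles crosses a level inside of the rectangle, and it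
leaves one of the two ends or one of the two sides of `δ`. -/
def Sharp {E : Type} (Γ : CMap E) (δ : E) (h : ℕ) (Y A : E → ℤ) : Prop :=
  ∃ (d : E) (j : ℕ), A d = A (Γ.flip d) ∧ j < h ∧ Y d ≤ j ∧ j < Y (Γ.flip d) ∧
    (Leaves Γ δ d ∨ Leaves Γ (Γ.flip δ) (Γ.flip d) ∨ Leaves Γ.dual (Γ.flip δ) d ∨
      Leaves Γ.dual δ (Γ.flip d))

universe u

mutual

/-- `Fill s m a S`: the elements of the set `S` satisfy the relations of the fundamental group
of a manifold which fills a torus with the peripheral elements `m`, `a` and the slopes of which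
are at least `0`, and larger than `0` if `s` holds. -/
inductive Fill {G : Type u} [Group G] : Bool → G → G → Set G → Prop
  /-- A solid torus of slope `c / d`. -/
  | solid (s : Bool) (m a : G) (d c : ℕ) (hd : 0 < d) (hs : s = true → 0 < c)
      (h : m ^ d = a ^ c) : Fill s m a ∅
  /-- The double cover of the complement of the crossing balls of a diagram, all of which but
  the ball of `δ` are filled with positive slopes.  The slopes at `δ` are between `q / p` and
  `p' / q'`, and the words `m` and `a` are positive in this interval. -/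
  | glue (s : Bool) (m a : G) {E : Type} [Finite E] (Γ : CMap E) (L : Lab G Γ) (δ : E)
      (P : Set E) (F : E → Set G) (hP : ∀ d, d ≠ δ → d ≠ Γ.flip δ → d ∈ P ∨ Γ.flip d ∈ P)
      (hF : ∀ d ∈ P, Fill true (L.M d) (L.D d) (F d)) (q p q' p' : ℕ) (h₁ : Low Γ L δ q p)
      (h₂ : Low Γ.dual (dual L) δ q' p') (P₁ Q₁ P₂ Q₂ : ℤ)
      (hP₁ : 0 < P₁ * q + Q₁ * p) (hQ₁ : 0 < P₁ * p' + Q₁ * q')
      (hP₂ : 0 < P₂ * q + Q₂ * p) (hQ₂ : 0 < P₂ * p' + Q₂ * q')
      (hm : m = L.M δ ^ P₁ * (L.D δ)⁻¹ ^ Q₁) (ha : a = L.M δ ^ P₂ * (L.D δ)⁻¹ ^ Q₂) :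
      Fill s m a (L.elts ∪ ⋃ d ∈ P, F d)

/-- `Low Γ L δ q p`: the slopes at `δ` are at least `q / p`, because `q = 0`, or because the
graph without the edge of `δ` dissects a rectangle. -/
inductive Low {G : Type u} [Group G] : {E : Type} → (Γ : CMap E) → Lab G Γ → E → ℕ → ℕ → Prop
  /-- The edge is neither a loop nor a bridge. -/
  | zero {E : Type} (Γ : CMap E) (L : Lab G Γ) (δ : E)
      (hl : ∀ i : ℕ, (Γ.rot ^ i) δ ≠ Γ.flip δ) (hb : ∀ i : ℕ, (Γ.dual.rot ^ i) δ ≠ Γ.flip δ) :
      Low Γ L δ 0 1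
  /-- The graph dissects a rectangle of height `h` and width `k`, the sum of the sizes of the
  rectangles is less than `h + k + gcd (h, k)`, and `q / p < k / h` (or `q / p = k / h`).  A
  rectangle of height `b` and width `a` is an edge of slope `a / b`, or an edge the slope of
  which is at least `a / b` and which touches `δ` (the set `C`). -/
  | tiled {E : Type} (Γ : CMap E) (L : Lab G Γ) (δ : E) (q p : ℕ) (hp : 0 < p)
      (hl : ∀ i : ℕ, (Γ.rot ^ i) δ ≠ Γ.flip δ) (hb : ∀ i : ℕ, (Γ.dual.rot ^ i) δ ≠ Γ.flip δ)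
      (h k : ℕ) (Y A : E → ℤ) (T : Finset E) (hT : Dissection Γ δ h k Y A T)
      (C : Set E) (R : E → Set G) (hC : ∀ d ∈ C, Touch Γ δ d)
      (hr : ∀ d ∈ C, Fill false (L.M d ^ (Y (Γ.flip d) - Y d) * (L.D d)⁻¹ ^ (A (Γ.flip d) - A d))
        (L.D d) (R d))
      (hx : ∀ d ∈ T, d ∉ C → L.M d ^ (Y (Γ.flip d) - Y d) = L.D d ^ (A (Γ.flip d) - A d))
      (ht : total Γ Y A T < h + k + Nat.gcd h k)
      (hq : q * h < k * p ∨ (q * h = k * p ∧ total Γ Y A T + 2 = h + k + Nat.gcd h k ∧
        Sharp Γ δ h Y A)) : Low Γ L δ q p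

end

end Pool.Agent.Helper89.TL
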