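import Pool.Agent.Helper89.TL.Defs
import Pool.Agent.Helper52.OT.Main

/-!
The action on the points which are moved up by the element of the negative edge: labels of the
vertices and of the faces, and the rules for the edges which touch the negative edge.
-/

set_option autoImplicit false

namespace Pool.Agent.Helper89.TL

open Pool.Agent.Helper42.Th hiding Fill
open Pool.Agent.Helper31.T3 Pool.Agent.Helper42.T3 Pool.Agent.Helper42.T4
open Pool.Agent.Helper31.OrderAct
open Pool.Agent.Helper71.Rot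
open Pool.Agent.Helper71.Tree (FillSpec)
open Pool.Agent.Helper24.T8 (dual HarmAt opHom comm_ab comm_pow)
open Pool.Agent.Helper52.OC (reg_of_fix reg_trans)
open Pool.Agent.Helper52.OT (LowSpec low_zero all_fix)

universe u

section harm

variable {E : Type} [Finite E] {Γ : CMap E} {δ : E} {Ω₁ Ω₂ : Type*} [LinearOrder Ω₁]
  [LinearOrder Ω₂] {f : E → Ω₁} {g : E → Ω₂}

lemma f_same (h : Harm Γ δ f g) {d e : E} (hs : Γ.rot.SameCycle d e) : f e = f d := by
  obtain ⟨n, hn, -, rfl⟩ := hs.exists_pow_eq''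
  have key : ∀ n : ℕ, f ((Γ.rot ^ n) d) = f d := by
    intro n
    induction n with
    | zero => rfl
    | succ n ih => rw [pow_succ', Equiv.Perm.mul_apply, h.f_rot, ih]
  exact key n

/-- The vertices which can be reached from a maximum. -/
lemma away_max (h : Harm Γ δ f g) (h0 : f (Γ.flip δ) ≤ f δ) {d e : E} (ha : Γ.Away δ d e) :
    f d = f δ → f e = f δ ∨ f (Γ.flip δ) = f δ := by
  induction ha with
  | refl d => intro h; exact Or.inl h
  | rot d e _ ih =>
    intro h1
    apply ih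
    rw [← h1]
    exact h.f_rot d
  | pass d e hd _ ih =>
    intro h1
    by_cases hend : f (Γ.flip δ) = f δ
    · exact Or.inr hend
    · apply ih
      have hsp := h.spread {c | f c = f δ ∧ ∀ m : ℕ, (Γ.rot ^ m) δ ≠ c} ?_ ?_ ?_ d ⟨h1, hd⟩
      · exact hsp.trans h1
      · intro c
        constructor
        · rintro ⟨h1, h2⟩
          refine ⟨(h.f_rot c).symm.trans h1, fun m hm => h2 (m + 1) ?_⟩
          rw [pow_succ', Equiv.Perm.mul_apply, hm]
        · rintro ⟨h1, h2⟩
          refine ⟨(h.f_rot c).trans h1, fun m hm => ?_⟩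
          rcases Nat.eq_zero_or_pos m with rfl | hpos
          · have h3 : 0 < orderOf Γ.rot := orderOf_pos _
            apply h2 (orderOf Γ.rot - 1)
            apply Γ.rot.injective
            rw [← hm, ← Equiv.Perm.mul_apply, ← pow_succ',
              show orderOf Γ.rot - 1 + 1 = orderOf Γ.rot by omega, pow_orderOf_eq_one]
            rfl
          · apply h2 (m - 1)
            apply Γ.rot.injective
            rw [← hm, ← Equiv.Perm.mul_apply, ← pow_succ', show m - 1 + 1 = m by omega]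
      · rintro c ⟨h1, h2⟩
        constructor
        · rintro rfl
          exact h2 0 rfl
        · rintro rfl
          exact hend h1
      · rintro c ⟨h1, -⟩
        change f (Γ.flip c) ≤ f c
        rw [h1]
        exact h.max h0 _

/-- An edge which leaves the start of `δ` is not constant. -/
lemma leaves_ne (h : Harm Γ δ f g) (h0 : f (Γ.flip δ) < f δ) {d : E} (hd : Leaves Γ δ d)
    (h1 : f (Γ.flip d) = f d) : False := by
  have h2 : f (Γ.flip d) = f δ := h1.trans (f_same h hd.1)
  rcases away_max h h0.le hd.2 h2 with h3 | h3 <;> exact h0.ne h3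

/-- The edges which touch `δ` go up. -/
lemma touch_up (h : Harm Γ δ f g) (h0 : f (Γ.flip δ) ≤ f δ) (h1 : g δ ≤ g (Γ.flip δ)) {d : E}
    (d1 : d ≠ δ) (d2 : d ≠ Γ.flip δ) (hd : Touch Γ δ d) :
    f (Γ.flip d) ≤ f d ∧ g (Γ.flip d) ≤ g d := by
  have e1 := h.ext h0 h1 d
  have e2 := h.ext h0 h1 (Γ.flip d)
  have hy : ∀ {c e : E}, Γ.dual.rot.SameCycle c e → g e = g c := fun hs => f_same h.dual hs
  rcases hd with hs | hs | hs | hs
  · have h2 : f (Γ.flip d) ≤ f d := by
      rw [f_same h hs]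
      exact e2.2.1
    exact ⟨h2, h.pos d d1 d2 h2⟩
  · have h2 : f (Γ.flip d) ≤ f d := by
      rw [f_same h hs]
      exact e1.1
    exact ⟨h2, h.pos d d1 d2 h2⟩
  · have h2 : g (Γ.flip d) ≤ g d := by
      rw [hy hs]
      exact e2.2.2.2
    exact ⟨h.dual.pos d d1 d2 h2, h2⟩
  · have h2 : g (Γ.flip d) ≤ g d := by
      rw [hy hs]
      exact e1.2.2.1
    exact ⟨h.dual.pos d d1 d2 h2, h2⟩

/-- A sharp edge is not constant. -/
lemma sharp_ne (h : Harm Γ δ f g) (h0 : f (Γ.flip δ) < f δ) (h1 : g δ < g (Γ.flip δ)) {d : E}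
    (d1 : d ≠ δ) (d2 : d ≠ Γ.flip δ)
    (hd : Leaves Γ δ d ∨ Leaves Γ (Γ.flip δ) (Γ.flip d) ∨ Leaves Γ.dual (Γ.flip δ) d ∨
      Leaves Γ.dual δ (Γ.flip d)) : g (Γ.flip d) ≠ g d := by
  intro h2
  have h3 := h.str d d1 d2 h2
  rcases hd with hs | hs | hs | hs
  · exact leaves_ne h h0 hs h3
  · refine leaves_ne h.swap.op ?_ hs ?_
    · rw [Γ.flip_flip]
      exact h0
    · rw [Γ.flip_flip, h3]
  · refine leaves_ne h.swap.dual ?_ hs h2
    change g (Γ.flip (Γ.flip δ)) < g (Γ.flip δ)
    rw [Γ.flip_flip]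
    exact h1
  · refine leaves_ne h.dual.op (d := Γ.flip d) (δ := δ) ?_ hs ?_
    · exact h1
    · change OrderDual.toDual (g (Γ.flip (Γ.flip d))) = OrderDual.toDual (g (Γ.flip d))
      rw [Γ.flip_flip, h2]

end harm

section res

variable {G : Type u} [Group G] {Ω : Type*} [LinearOrder Ω] {K : Subgroup G} {U : Set Ω}

/-- The restriction of an action to an invariant set. -/
def res (ρ : G →* (Ω ≃o Ω)) (hU : ∀ g ∈ K, ∀ z ∈ U, ρ g z ∈ U) : K →* (U ≃o U) where
  toFun g :=
    { toFun := fun z => ⟨ρ g z, hU g g.2 z z.2⟩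
      invFun := fun z => ⟨ρ (g : G)⁻¹ z, hU _ (K.inv_mem g.2) z z.2⟩
      left_inv := fun z => Subtype.ext (by
        change ρ (g : G)⁻¹ (ρ g z) = z
        rw [map_inv, RelIso.inv_apply_self])
      right_inv := fun z => Subtype.ext (by
        change ρ (g : G) (ρ (g : G)⁻¹ z) = z
        rw [map_inv, RelIso.apply_inv_self])
      map_rel_iff' := (ρ (g : G)).le_iff_le }
  map_one' := by
    ext z
    change ρ ((1 : K) : G) z = z
    rw [Subgroup.coe_one, map_one]
    rfl
  map_mul' g g' := by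
    ext z
    change ρ ((g * g' : K) : G) z = ρ g (ρ g' z)
    rw [Subgroup.coe_mul, map_mul]
    rfl

lemma res_apply (ρ : G →* (Ω ≃o Ω)) (hU : ∀ g ∈ K, ∀ z ∈ U, ρ g z ∈ U) (g : K) (z : U) :
    ((res ρ hU g z : U) : Ω) = ρ g z := rfl

end res

end Pool.Agent.Helper89.TL
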