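import Pool.Agent.Helper33.TL.Squares
import Pool.Agent.Helper32.TI.Gcd

/-!
Dissections of a rectangle into rectangles which are not too many.
-/

set_option autoImplicit false

namespace Pool.Agent.Helper89.TL

variable {X : Type*} [LinearOrder X] {h k : ℕ} {τ M : X ≃o X} {ι : Type} [Fintype ι]

lemma dual_pow (f : X ≃o X) (n : ℕ) (z : X) :
    (f.dual ^ n) (OrderDual.toDual z) = OrderDual.toDual ((f ^ n) z) := by
  induction n generalizing z with
  | zero => rfl
  | succ n ih => rw [pow_succ, pow_succ, RelIso.mul_apply, RelIso.mul_apply, ← ih]; rfl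

/-- If the sum of the sizes is small, then `τ ^ (k / d)` is not above `M ^ (h / d)`. -/
theorem RTiling.weak [Nonempty X] (T : RTiling X h k τ M ι) (hh : 0 < h) (hk : 0 < k)
    (hc : Commute τ M)
    (hsum : ∑ e, (T.wd e + T.ht e - Nat.gcd (T.wd e) (T.ht e)) < h + k + Nat.gcd h k) :
    ∃ z, (τ ^ (k / Nat.gcd h k)) z ≤ (M ^ (h / Nat.gcd h k)) z := by
  by_contra hn
  push Not at hn
  obtain ⟨κ, _, U, hU, -⟩ := T.squares
  have h1 := U.rect_gcd hk hh (by rw [hU]; exact hsum)
    (fun z => by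
      change OrderDual.toDual (τ (M (OrderDual.ofDual z))) =
        OrderDual.toDual (M (τ (OrderDual.ofDual z)))
      rw [← RelIso.mul_apply, ← RelIso.mul_apply, hc.eq])
    (fun z => by
      rw [← OrderDual.toDual_ofDual z, dual_pow, dual_pow]
      exact (hn _).le)
  obtain ⟨z⟩ := ‹Nonempty X›
  have h2 := h1 (OrderDual.toDual z)
  rw [dual_pow, dual_pow] at h2
  exact (hn z).ne (OrderDual.toDual.injective h2).symm

/-- The case of equality. -/
theorem RTiling.rigid (T : RTiling X h k τ M ι) (hh : 0 < h) (hk : 0 < k) (hc : Commute τ M)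
    (hsum : ∑ e, (T.wd e + T.ht e - Nat.gcd (T.wd e) (T.ht e)) + 2 = h + k + Nat.gcd h k)
    (hle : ∀ z, (M ^ (h / Nat.gcd h k)) z ≤ (τ ^ (k / Nat.gcd h k)) z) :
    (∀ e, T.al e = 0 → ∀ z, T.lt e z = z) ∧ (∀ e, T.al e + T.wd e = k → ∀ z, T.rt e z = M z) ∧
    (∀ e e' j, In (T.yt e) (T.ht e) j → In (T.yt e') (T.ht e') j → T.al e + T.wd e = T.al e' →
      ∀ z, T.rt e z = T.lt e' z) := by
  obtain ⟨κ, _, U, hU, s1, s2, s3⟩ := T.squares
  obtain ⟨-, h1, h2, h3, -⟩ := U.rect_gcd_eq hk hh (by rw [hU]; exact hsum)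
    (fun z => by
      change OrderDual.toDual (τ (M (OrderDual.ofDual z))) =
        OrderDual.toDual (M (τ (OrderDual.ofDual z)))
      rw [← RelIso.mul_apply, ← RelIso.mul_apply, hc.eq])
    (fun z => by
      rw [← OrderDual.toDual_ofDual z, dual_pow, dual_pow]
      exact hle _)
  have start : ∀ e, In (T.yt e) (T.ht e) (T.yt e) := fun e =>
    ⟨le_rfl, Nat.lt_add_of_pos_right (T.ht_pos e)⟩
  refine ⟨fun e he z => ?_, fun e he z => ?_, fun e e' j hj hj' he z => ?_⟩
  · obtain ⟨f, f1, -, f2⟩ := s1 e he _ (start e)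
    have h4 := h1 f f1 (OrderDual.toDual z)
    rw [f2] at h4
    exact OrderDual.toDual.injective h4
  · obtain ⟨f, f1, -, f2⟩ := s2 e he _ (start e)
    have h4 := h2 f f1 (OrderDual.toDual z)
    rw [f2] at h4
    exact (OrderDual.toDual.injective h4).symm
  · obtain ⟨f, f', f1, f2, f3, f4, f5⟩ := s3 e e' j hj hj' he
    have h4 := h3 f f' j f1.1 f1.2 f2.1 f2.2 f3 (OrderDual.toDual z)
    rw [f4, f5] at h4
    exact (OrderDual.toDual.injective h4).symm

end Pool.Agent.Helper89.TL
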