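import Pool.Agent.Helper89.TL.Act
import Pool.Agent.Helper89.TL.Rigid
import Pool.Agent.Helper74.TW.Rt

/-!
The lower bound for the slopes which is given by a dissection of a rectangle.
-/

set_option autoImplicit false

namespace Pool.Agent.Helper89.TL

open Pool.Agent.Helper42.Th hiding Fill
open Pool.Agent.Helper31.T3 Pool.Agent.Helper42.T3 Pool.Agent.Helper42.T4
open Pool.Agent.Helper31.OrderAct
open Pool.Agent.Helper71.Rot
open Pool.Agent.Helper71.Tree (FillSpec)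
open Pool.Agent.Helper24.T8 (dual HarmAt opHom comm_ab comm_pow)
open Pool.Agent.Helper52.OC (reg_of_fix reg_trans)
open Pool.Agent.Helper52.OT (LowSpec low_zero all_fix mem_x mem_y mem_D mem_M pow_le_of)

universe u

section pow

variable {X : Type*} [LinearOrder X] {u v : X ≃o X}

lemma le_pow (h : ∀ z, z < u z) {m n : ℕ} (hmn : m ≤ n) (z : X) : (u ^ m) z ≤ (u ^ n) z := by
  obtain ⟨j, rfl⟩ := Nat.exists_eq_add_of_le hmn
  rw [pow_add, RelIso.mul_apply]
  apply (u ^ m).monotone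
  clear hmn
  induction j with
  | zero => exact le_rfl
  | succ j ih =>
    rw [pow_succ', RelIso.mul_apply]
    exact ih.trans (h _).le

lemma lt_pow (h : ∀ z, z < u z) {m n : ℕ} (hmn : m < n) (z : X) : (u ^ m) z < (u ^ n) z := by
  refine lt_of_lt_of_le ?_ (le_pow h (show m + 1 ≤ n from hmn) z)
  rw [pow_succ', RelIso.mul_apply]
  exact h _

end pow

section low

variable {E : Type} [Finite E] {G : Type u} [Group G] {Γ : CMap E} {L : Lab G Γ} {δ : E}
  {q p : ℕ}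

/-- The bound given by a dissection. -/
theorem low_tiled (hp : 0 < p) (hl : ∀ i : ℕ, (Γ.rot ^ i) δ ≠ Γ.flip δ)
    (hb : ∀ i : ℕ, (Γ.dual.rot ^ i) δ ≠ Γ.flip δ) {h k : ℕ} {Y A : E → ℤ} {T : Finset E}
    (hT : Dissection Γ δ h k Y A T) (C : Set E) (R : E → Set G) (hC : ∀ d ∈ C, Touch Γ δ d)
    (hr : ∀ d ∈ C, ∀ (Ω : Type u) [CompleteLinearOrder Ω] (ρ : G →* (Ω ≃o Ω)),
      FillSpec false (some 0) none
        (ρ (L.M d ^ (Y (Γ.flip d) - Y d) * (L.D d)⁻¹ ^ (A (Γ.flip d) - A d)))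
        (ρ (L.D d)) (ρ '' R d))
    (hx : ∀ d ∈ T, d ∉ C → L.M d ^ (Y (Γ.flip d) - Y d) = L.D d ^ (A (Γ.flip d) - A d))
    (ht : total Γ Y A T < h + k + Nat.gcd h k)
    (hq : q * h < k * p ∨ (q * h = k * p ∧ total Γ Y A T + 2 = h + k + Nat.gcd h k ∧
      Sharp Γ δ h Y A)) : LowSpec Γ L δ q p := by
  refine ⟨hp, hl, hb, fun Ω _ ρ H z₀ hz₀ => ?_⟩
  by_contra hn
  push Not at hn
  have h₀ : LowSpec Γ L δ 0 1 := low_zero hl hb
  have fix : ∀ g ∈ Subgroup.closure L.elts, ∀ y, ρ (L.D δ) y = y → ρ g y = y := by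
    intro g hg y hy
    have h1 := (all_fix (P := ∅) (F := fun _ => ∅) h₀ H
      (fun d hd => absurd hd (Set.notMem_empty d)) hy).2
    induction hg using Subgroup.closure_induction with
    | mem g hg => exact h1 g (Or.inl hg)
    | one => rw [map_one]; rfl
    | mul a b _ _ ha hb => rw [map_mul, RelIso.mul_apply, hb, ha]
    | inv a _ ha => rw [map_inv]; exact inv_fix ha
  set U : Set Ω := {y | Reg (ρ (L.D δ)) z₀ y} with hU
  have up : ∀ y ∈ U, y < ρ (L.D δ) y := fun y hy => reg_lt hz₀ hy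
  have inv : ∀ g ∈ Subgroup.closure L.elts, ∀ y ∈ U, ρ g y ∈ U := fun g hg y hy =>
    reg_trans hy (reg_of_fix (fix g hg) (up y hy))
  have low : ∀ y ∈ U, lx L ρ (Γ.flip δ) y < lx L ρ δ y := by
    intro y hy
    rw [← X_D L ρ δ y]
    exact (lx L ρ (Γ.flip δ)).strictMono (up y hy)
  have lowM : ∀ y ∈ U, ly L ρ δ y < ly L ρ (Γ.flip δ) y := by
    intro y hy
    have h5 := (H y).sgn hl (low y hy).le
    exact lt_of_le_of_ne h5 fun e => (low y hy).ne ((H y).strict hb e.symm)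
  have upM : ∀ y ∈ U, y < ρ (L.M δ)⁻¹ y := by
    intro y hy
    rw [← (ρ (L.M δ)).lt_iff_lt, ← RelIso.mul_apply, ← map_mul, mul_inv_cancel, map_one]
    refine lt_of_le_of_ne ((dn_M L ρ).mpr (lowM y hy).le) fun e => (lowM y hy).ne' ?_
    exact le_antisymm ((up_M L ρ).mp e.ge) ((dn_M L ρ).mp e.le)
  have touch : ∀ d, d ≠ δ → d ≠ Γ.flip δ → Touch Γ δ d → ∀ y ∈ U,
      y ≤ ρ (L.D d) y ∧ y ≤ ρ (L.M d) y := by
    intro d d1 d2 hd y hy
    obtain ⟨h1, h2⟩ := touch_up (H y) (low y hy).le (lowM y hy).le d1 d2 hd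
    exact ⟨(up_D L ρ).mpr h1, (up_M L ρ).mpr h2⟩
  -- the labels
  set κ := res ρ inv with hκ
  set τ : U ≃o U := κ ⟨L.D δ, mem_D δ⟩ with hτ
  set M : U ≃o U := κ ⟨(L.M δ)⁻¹, Subgroup.inv_mem _ (mem_M δ)⟩ with hM
  set V : E → (U ≃o U) := fun d =>
    κ ⟨(L.x d)⁻¹ * L.x δ, Subgroup.mul_mem _ (Subgroup.inv_mem _ (mem_x d)) (mem_x δ)⟩ with hV
  set W : E → (U ≃o U) := fun d =>
    κ ⟨(L.y d)⁻¹ * L.y (Γ.flip δ),
      Subgroup.mul_mem _ (Subgroup.inv_mem _ (mem_y d)) (mem_y (Γ.flip δ))⟩ with hW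
  have eV : ∀ d, V (Γ.flip d) * (V d)⁻¹ = κ ⟨L.D d, mem_D d⟩ := by
    intro d
    rw [hV]
    simp only
    rw [← map_inv, ← map_mul]
    congr 1
    apply Subtype.ext
    change (L.x (Γ.flip d))⁻¹ * L.x δ * ((L.x d)⁻¹ * L.x δ)⁻¹ = L.D d
    rw [Lab.D]
    group
  have eW : ∀ d, W (Γ.flip d) * (W d)⁻¹ = κ ⟨L.M d, mem_M d⟩ := by
    intro d
    rw [hW]
    simp only
    rw [← map_inv, ← map_mul]
    congr 1
    apply Subtype.ext
    change (L.y (Γ.flip d))⁻¹ * L.y (Γ.flip δ) * ((L.y d)⁻¹ * L.y (Γ.flip δ))⁻¹ = L.M d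
    rw [Lab.M]
    group
  have eW' : ∀ d z, W (Γ.flip d) z = κ ⟨L.M d, mem_M d⟩ (W d z) := by
    intro d z
    rw [← eW, ← RelIso.mul_apply, mul_assoc, inv_mul_cancel, mul_one]
  have hcomm : Commute τ M := by
    rw [hτ, hM]
    refine Commute.map ?_ κ
    apply Subtype.ext
    exact ((show Commute (L.M δ) (L.D δ) from comm_MD L δ).inv_left).symm.eq
  have hne : δ ≠ Γ.flip δ := hl 0
  have hk : 0 < k := hT.k_pos
  have hh : 0 < h := hT.h_pos
  have neT : ∀ d ∈ T, d ≠ δ ∧ d ≠ Γ.flip δ := by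
    intro d hd
    obtain ⟨h1, h2⟩ := (hT.mem d).mp hd
    refine ⟨?_, h1⟩
    rintro rfl
    rw [hT.A_lo, hT.A_hi] at h2
    omega
  have neW : ∀ d, A d = A (Γ.flip d) → d ≠ δ ∧ d ≠ Γ.flip δ := by
    intro d hd
    constructor
    · rintro rfl
      rw [hT.A_lo, hT.A_hi] at hd
      omega
    · rintro rfl
      rw [Γ.flip_flip, hT.A_lo, hT.A_hi] at hd
      omega
  obtain ⟨D, hsum, hstr⟩ := Pool.Agent.Helper74.TW.exists_rtiling (X := U) hT V W
    (fun d => by rw [hV]; simp only [L.x_rot]) (fun d => by rw [hW]; simp only [L.y_rot]) τ M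
    (by
      rw [hV]
      simp only
      rw [show (⟨(L.x δ)⁻¹ * L.x δ, Subgroup.mul_mem _ (Subgroup.inv_mem _ (mem_x δ)) (mem_x δ)⟩ :
        Subgroup.closure L.elts) = 1 from Subtype.ext (inv_mul_cancel _), map_one])
    rfl
    (by
      rw [hW]
      simp only
      rw [show (⟨(L.y (Γ.flip δ))⁻¹ * L.y (Γ.flip δ), Subgroup.mul_mem _
        (Subgroup.inv_mem _ (mem_y (Γ.flip δ))) (mem_y (Γ.flip δ))⟩ :
        Subgroup.closure L.elts) = 1 from Subtype.ext (inv_mul_cancel _), map_one])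
    (by
      rw [hW, hM]
      simp only
      congr 1
      apply Subtype.ext
      change (L.y δ)⁻¹ * L.y (Γ.flip δ) = (L.M δ)⁻¹
      rw [Lab.M, mul_inv_rev, inv_inv])
    (fun d => by
      rw [eV, eW]
      refine Commute.map ?_ κ
      apply Subtype.ext
      exact (comm_MD L d).symm)
    (fun d hd z => by
      rw [eV, eW, ← map_zpow, ← map_zpow]
      change ρ ((⟨L.D d, mem_D d⟩ : Subgroup.closure L.elts) ^ (A (Γ.flip d) - A d) :
          Subgroup.closure L.elts) z ≤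
        ρ ((⟨L.M d, mem_M d⟩ : Subgroup.closure L.elts) ^ (Y (Γ.flip d) - Y d) :
          Subgroup.closure L.elts) z
      rw [Subgroup.coe_zpow, Subgroup.coe_zpow]
      by_cases hdC : d ∈ C
      · obtain ⟨d1, d2⟩ := neT d hd
        have h1 := (touch d d1 d2 (hC d hdC) z z.2).1
        have hc : Commute (L.M d) (L.D d) := comm_MD L d
        have h2 := ((hr d hdC Ω ρ).bd (by
          rw [← map_mul, ← map_mul]
          congr 1
          exact ((hc.zpow_left _).mul_left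
            ((Commute.refl (L.D d)).inv_left.zpow_left _)).eq)).lower 0 rfl
        rw [neg_zero, zpow_zero, one_mul] at h2
        have h3 := (ρ (L.D d ^ (A (Γ.flip d) - A d))).monotone (h2.up z h1).1
        rw [← RelIso.mul_apply, ← map_mul] at h3
        have h4 : L.D d ^ (A (Γ.flip d) - A d) *
            (L.M d ^ (Y (Γ.flip d) - Y d) * (L.D d)⁻¹ ^ (A (Γ.flip d) - A d)) =
            L.M d ^ (Y (Γ.flip d) - Y d) := by
          rw [← mul_assoc, (hc.symm.zpow_zpow _ _).eq, mul_assoc, inv_zpow, mul_inv_cancel,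
            mul_one]
        rwa [h4] at h3
      · rw [hx d hd hdC])
    (fun d h1 h2 z => by
      obtain ⟨d1, d2⟩ := neW d h1
      rw [eW']
      exact (touch d d1 d2 (hT.wall d h1 h2) (W d z) (W d z).2).2)
  have hcast : ((∑ e, (D.wd e + D.ht e - Nat.gcd (D.wd e) (D.ht e)) : ℕ) : ℤ) =
      total Γ Y A T := by
    rw [← hsum, Nat.cast_sum]
    refine Finset.sum_congr rfl fun e _ => ?_
    have := Nat.gcd_le_left (D.ht e) (D.wd_pos e)
    omega
  -- the slope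
  have hup : ∀ z, z < τ z := fun z => up z z.2
  have hn' : ∀ z, (M ^ p) z ≤ (τ ^ q) z := by
    intro z
    have h1 := hn z z.2
    rw [hM, hτ, ← map_pow, ← map_pow]
    change ρ ((⟨(L.M δ)⁻¹, Subgroup.inv_mem _ (mem_M δ)⟩ : Subgroup.closure L.elts) ^ p :
      Subgroup.closure L.elts) z ≤ ρ ((⟨L.D δ, mem_D δ⟩ : Subgroup.closure L.elts) ^ q :
      Subgroup.closure L.elts) z
    rw [Subgroup.coe_pow, Subgroup.coe_pow, map_pow, map_pow]
    exact h1
  set g := Nat.gcd h k with hg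
  have hg0 : 0 < g := Nat.gcd_pos_of_pos_left _ hh
  obtain ⟨h', hh'⟩ : g ∣ h := Nat.gcd_dvd_left h k
  obtain ⟨k', hk'⟩ : g ∣ k := Nat.gcd_dvd_right h k
  have eh : h / g = h' := by
    rw [hh', Nat.mul_div_cancel_left _ hg0]
  have ek : k / g = k' := by
    rw [hk', Nat.mul_div_cancel_left _ hg0]
  have hcz : ∀ z, τ (M z) = M (τ z) := fun z => by
    rw [← RelIso.mul_apply, ← RelIso.mul_apply, hcomm.eq]
  have hpw : ∀ z, (M ^ (h' * p)) z ≤ (τ ^ (q * h')) z := by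
    intro z
    have h1 := pow_le_of (u := M ^ p) (v := τ ^ q)
      (fun z => (comm_pow hcz q p z).symm) (hn' z) h'
    rwa [← pow_mul, ← pow_mul, Nat.mul_comm p] at h1
  have hqk : q * h' < k' * p ∨ (q * h' = k' * p ∧
      total Γ Y A T + 2 = h + k + g ∧ Sharp Γ δ h Y A) := by
    rcases hq with h1 | ⟨h1, h2⟩
    · left
      rw [hh', hk', Nat.mul_left_comm, Nat.mul_assoc] at h1
      exact lt_of_mul_lt_mul_left h1 (Nat.zero_le _)
    · right
      refine ⟨?_, h2⟩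
      rw [hh', hk', Nat.mul_left_comm, Nat.mul_assoc] at h1
      exact Nat.eq_of_mul_eq_mul_left hg0 h1
  rcases hqk with h1 | ⟨h1, h2, d, j, h3, h4, h5, h6, h7⟩
  · have : Nonempty U := ⟨⟨z₀, reg_self _ z₀⟩⟩
    obtain ⟨z, hz⟩ := D.weak hh hk hcomm (by
      have : ((∑ e, (D.wd e + D.ht e - Nat.gcd (D.wd e) (D.ht e)) : ℕ) : ℤ) <
          ((h + k + g : ℕ) : ℤ) := by
        rw [hcast]
        push_cast
        exact ht
      exact_mod_cast this)
    rw [← hg, eh, ek] at hz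
    have h2 := pow_le_of (u := τ ^ k') (v := M ^ h')
      (fun z => comm_pow hcz k' h' z) hz p
    rw [← pow_mul, ← pow_mul] at h2
    exact absurd (h2.trans (hpw z)) (not_le.mpr (lt_pow hup h1 z))
  · have hle : ∀ z, (M ^ h') z ≤ (τ ^ k') z := by
      intro z
      by_contra hc
      push Not at hc
      have h8 := pow_lt_of (a := τ ^ k') (b := M ^ h') (fun z => comm_pow hcz k' h' z) hc hp
      rw [← pow_mul, ← pow_mul, ← h1] at h8
      exact absurd (hpw z) (not_le.mpr h8)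
    obtain ⟨r1, r2, r3⟩ := D.rigid hh hk hcomm (by
      have : ((∑ e, (D.wd e + D.ht e - Nat.gcd (D.wd e) (D.ht e)) + 2 : ℕ) : ℤ) =
          ((h + k + g : ℕ) : ℤ) := by
        rw [Nat.cast_add, hcast]
        push_cast
        exact h2
      exact_mod_cast this) (by rw [← hg, eh, ek]; exact hle)
    have h8 := hstr r1 r2 r3 d h3 j h4 h5 h6
    obtain ⟨d1, d2⟩ := neW d h3
    -- a point
    set z : U := (W d).symm ⟨z₀, reg_self _ z₀⟩ with hz
    have h9 := h8 z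
    rw [eW', hz, OrderIso.apply_symm_apply] at h9
    have h10 : ρ (L.M d) z₀ = z₀ := (congrArg Subtype.val h9).symm
    refine sharp_ne (H z₀) (low z₀ (reg_self _ z₀)) (lowM z₀ (reg_self _ z₀)) d1 d2 h7 ?_
    exact le_antisymm ((up_M L ρ).mp h10.ge) ((dn_M L ρ).mp h10.le)

end low

end Pool.Agent.Helper89.TL
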