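import Pool.Agent.Helper89.TL.Low
import Pool.Agent.Helper52.OT.MainSpec

/-!
Closed manifolds glued along trees from double branched covers of the complements of crossing
balls of alternating diagrams, the slopes of which are bounded by dissections of rectangles: the
fundamental group is not left-orderable.
-/

set_option autoImplicit false

namespace Pool.Agent.Helper89.TL

open Pool.Agent.Helper42.Th hiding Fill
open Pool.Agent.Helper31.OrderAct
open Pool.Agent.Helper71.Rot
open Pool.Agent.Helper71.Tree (FillSpec solid_spec)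
open Pool.Agent.Helper24.T8 (dual HarmAt)
open Pool.Agent.Helper52.OT (LowSpec low_zero glue_spec main_spec)

universe u

/-- What a filling means for actions on linear orders. -/
theorem spec_of_fill {G : Type u} [Group G] {s : Bool} {m a : G} {S : Set G}
    (h : Fill s m a S) : ∀ (Ω : Type u) [CompleteLinearOrder Ω] (ρ : G →* (Ω ≃o Ω)),
      FillSpec s (some 0) none (ρ m) (ρ a) (ρ '' S) := by
  refine Fill.rec (motive_1 := fun s m a S _ => ∀ (Ω : Type u) [CompleteLinearOrder Ω]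
      (ρ : G →* (Ω ≃o Ω)), FillSpec s (some 0) none (ρ m) (ρ a) (ρ '' S))
    (motive_2 := fun {E} Γ L δ q p _ => Finite E → LowSpec Γ L δ q p) ?_ ?_ ?_ ?_ h
  · intro s m a d c hd hs h Ω _ ρ
    rw [Set.image_empty]
    refine solid_spec (d := d) (c := c) (by exact_mod_cast hd) ?_ ?_ ?_
    · intro k' hk'
      obtain rfl := Option.some_injective _ hk'
      refine ⟨by rw [zero_mul]; exact Int.natCast_nonneg _, fun h1 h2 => ?_⟩
      have := hs h1
      omega
    · intro k' hk'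
      exact absurd hk' (by simp)
    · rw [zpow_natCast, zpow_natCast, ← map_pow, ← map_pow, h]
  · intro s m a E _ Γ L δ P F hP hF q p q' p' h₁ h₂ P₁ Q₁ P₂ Q₂ hP₁ hQ₁ hP₂ hQ₂ hm ha ihF ih₁
      ih₂ Ω _ ρ
    rw [hm, ha]
    exact glue_spec s hP ihF (ih₁ inferInstance) (ih₂ inferInstance) ⟨hP₁, hQ₁⟩ ⟨hP₂, hQ₂⟩ Ω ρ
  · intro E Γ L δ hl hb _
    exact low_zero hl hb
  · intro E Γ L δ q p hp hl hb h k Y A T hT C R hC hr hx ht hq ih _
    exact low_tiled hp hl hb hT C R hC ih hx ht hq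

/-- What a lower bound for the slope means for actions on linear orders. -/
theorem spec_of_low {G : Type u} [Group G] {E : Type} [Finite E] {Γ : CMap E} {L : Lab G Γ}
    {δ : E} {q p : ℕ} (h : Low Γ L δ q p) : LowSpec Γ L δ q p := by
  cases h with
  | zero _ _ _ hl hb => exact low_zero hl hb
  | tiled _ _ _ _ _ hp hl hb h k Y A T hT C R hC hr hx ht hq =>
    exact low_tiled hp hl hb hT C R hC (fun d hd => spec_of_fill (hr d hd)) hx ht hq

section main

variable {E : Type} [Finite E] {G : Type u} [Group G] {Γ : CMap E} {L : Lab G Γ} {δ : E}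
  {q p q' p' : ℕ} {P : Set E} {F : E → Set G} {F₀ : Set G} {A B C D : ℤ}

/-- The main theorem. -/
theorem main (hP : ∀ d, d ≠ δ → d ≠ Γ.flip δ → d ∈ P ∨ Γ.flip d ∈ P)
    (hpos : ∀ d ∈ P, Fill true (L.M d) (L.D d) (F d))
    (h₁ : Low Γ L δ q p) (h₂ : Low Γ.dual (dual L) δ q' p')
    (hAB : A ≠ 0 ∨ B ≠ 0) (h1 : 0 ≤ A * q + B * p) (h2 : 0 ≤ A * p' + B * q')
    (h3 : 0 < C * q + D * p) (h4 : 0 < C * p' + D * q')
    (hneg : Fill false (L.M δ ^ A * (L.D δ)⁻¹ ^ B) (L.M δ ^ C * (L.D δ)⁻¹ ^ D)⁻¹ F₀)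
    (hgen : Subgroup.closure ((L.elts ∪ ⋃ d ∈ P, F d) ∪ F₀) = ⊤) :
    ¬ (Nontrivial G ∧ ∃ _ : LinearOrder G, ∀ f g h : G, g ≤ h → f * g ≤ f * h) :=
  main_spec hP (fun d hd => spec_of_fill (hpos d hd)) (spec_of_low h₁) (spec_of_low h₂) hAB h1 h2
    h3 h4 (spec_of_fill hneg) hgen

end main

end Pool.Agent.Helper89.TL
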